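import Pool.Agent.Lib.MP_211349_ag.T.Main
import Pool.Agent.Lib.MP_211349_ag.Curve

/-!
# PART N: commutative algebra
-/

open CategoryTheory Limits Polynomial TensorProduct

universe u

noncomputable section

namespace Pool.Agent.Lib.MP_211349_ag

-- BEGIN NA1
/-- (NA1) Basis `x^i y^j`, `j < 2`: `AdjoinRoot.powerBasis'` for the monic polynomial `X² - C f` (n = 2) over `F[X]`, and
`Polynomial.basisMonomials`; `Module.Basis.smulTower` (reindex). -/
theorem freeOver_dc {F : Type u} [CommRing F] [Nontrivial F] (f : F[X]) :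
    FreeOver (F := F) (DC.x f) := by
  have hm : (X ^ 2 - C f : F[X][X]).Monic := monic_X_pow_sub_C f two_ne_zero
  let pb := AdjoinRoot.powerBasis' hm
  let e := ((Polynomial.basisMonomials F).smulTower pb.basis).reindex (Equiv.prodComm _ _)
  refine ⟨pb.dim, e, fun j i => ?_⟩
  have h1 : ∀ i, e (j, i) = (monomial i 1 : F[X]) • pb.basis j := by
    intro i
    simp only [e, Module.Basis.reindex_apply, Equiv.prodComm_symm, Equiv.prodComm_apply,
      Prod.swap_prod_mk, Module.Basis.smulTower_apply, Polynomial.coe_basisMonomials]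
  rw [h1, h1, Algebra.smul_def, Algebra.smul_def, ← mul_assoc]
  congr 1
  change algebraMap F[X] (DC f) X * algebraMap F[X] (DC f) _ = algebraMap F[X] (DC f) _
  rw [← map_mul, Polynomial.X_mul_monomial]
-- END NA1

-- BEGIN NA2
/-- (NA2) Transport of `FreeOver` along an isomorphism of `F`-algebras: map the basis. -/
theorem freeOver_transport {F P P' : Type u} [CommRing F] [CommRing P] [CommRing P'] (a : F →+* P)
    (e : P →+* P') (he : Function.Bijective e) (x : P) (h : @FreeOver F P _ _ a.toAlgebra x) :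
    @FreeOver F P' _ _ (e.comp a).toAlgebra (e x) := by
  let _ : Algebra F P := a.toAlgebra
  let _ : Algebra F P' := (e.comp a).toAlgebra
  obtain ⟨n, b, hb⟩ := h
  let E : P ≃ₗ[F] P' := LinearEquiv.ofBijective
    { toFun := e
      map_add' := e.map_add
      map_smul' := fun c y => by
        change e (a c * y) = e (a c) * e y
        exact e.map_mul _ _ } he
  refine ⟨n, b.map E, fun j i => ?_⟩
  rw [Module.Basis.map_apply, Module.Basis.map_apply]
  change e x * e (b (j, i)) = e (b (j, i + 1))
  rw [← e.map_mul, hb]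
-- END NA2

-- BEGIN NA3
private theorem NA3_mem_nonZeroDivisors {F P : Type u} [CommRing F] [CommRing P] [Algebra F P]
    (x : P) (h : FreeOver (F := F) x) : x ∈ nonZeroDivisors P := by
  obtain ⟨n, e, he⟩ := h
  rw [mem_nonZeroDivisors_iff_right]
  intro p hp
  have hshift : Function.Injective (fun k : Fin n × ℕ => (k.1, k.2 + 1)) := by
    rintro ⟨i, a⟩ ⟨j, b⟩ hij
    simp only [Prod.mk.injEq, Nat.add_right_cancel_iff] at hij
    exact Prod.ext hij.1 hij.2
  have hli : LinearIndependent F (fun k : Fin n × ℕ => x * e k) := by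
    have h1 := e.linearIndependent.comp _ hshift
    have h2 : (fun k : Fin n × ℕ => x * e k) = e ∘ (fun k : Fin n × ℕ => (k.1, k.2 + 1)) := by
      funext k
      exact he k.1 k.2
    rw [h2]
    exact h1
  have h3 : Finsupp.linearCombination F (fun k : Fin n × ℕ => x * e k) (e.repr p) = 0 := by
    have h4 : Finsupp.linearCombination F (fun k : Fin n × ℕ => x * e k) (e.repr p) =
        x * Finsupp.linearCombination F e (e.repr p) := by
      rw [Finsupp.linearCombination_apply, Finsupp.linearCombination_apply, Finsupp.mul_sum]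
      refine Finsupp.sum_congr fun k _ => ?_
      rw [mul_smul_comm]
    rw [h4, e.linearCombination_repr, mul_comm]
    exact hp
  have h5 : e.repr p = 0 := (linearIndependent_iff.1 hli) _ h3
  exact (LinearEquiv.map_eq_zero_iff e.repr).1 h5

/-- (NA3) A free algebra over `F[x]`: the image of `x` in a nonzero étale algebra is not zero: multiplication by `x` is
injective on `P` (basis), hence on the flat `P`-algebra `B₀` (étale → flat), and `1 ≠ 0`. -/
theorem ne_zero_of_freeOver {F P B₀ : Type u} [CommRing F] [CommRing P] [CommRing B₀]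
    [Nontrivial B₀] (a : F →+* P) (x : P) (h : @FreeOver F P _ _ a.toAlgebra x) (τ : P →+* B₀)
    (hτ : τ.Etale) : τ x ≠ 0 := by
  let _ : Algebra F P := a.toAlgebra
  have hx : x ∈ nonZeroDivisors P := NA3_mem_nonZeroDivisors x h
  let _ : Algebra P B₀ := τ.toAlgebra
  have hE : Algebra.Etale P B₀ := hτ
  have hflat : Module.Flat P B₀ := inferInstance
  have h1 : IsSMulRegular P x := by
    intro p q hpq
    exact (mem_nonZeroDivisors_iff_right.1 hx |> fun h => by
      have h2 : (p - q) * x = 0 := by
        have h3 : x * p = x * q := hpq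
        rw [sub_mul, mul_comm p, mul_comm q, h3, sub_self]
      exact sub_eq_zero.1 (h _ h2))
  have h2 : IsSMulRegular B₀ x := h1.of_flat
  intro h0
  have h3 : x • (1 : B₀) = x • (0 : B₀) := by
    rw [Algebra.smul_def, smul_zero, mul_one]
    exact h0
  exact one_ne_zero (h2 h3)
-- END NA3

-- BEGIN NA4
/-- (NA4) The tensor product of a field and a domain of finite type over an algebraically closed field is a domain.
Write two elements with nonzero product zero as `∑ a_i ⊗ b_i`, `∑ a'_j ⊗ b'_j` with (a_i), (a'_j) linearly independent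
over `F` (e.g. with a basis of `k` over `F`: `k ⊗ B₀` is free over `B₀`). For every `F`-homomorphism `χ : B₀ → F` (B₀/m = F for maximal
ideals, Nullstellensatz) `(∑ a_i χ(b_i)) (∑ a'_j χ(b'_j)) = 0` in `k`, hence all `χ(b_i) = 0` or all `χ(b'_j) = 0`; so `b_i b'_j` lies in every maximal
ideal, hence is zero (`B₀` is Jacobson and reduced); thus all `b_i = 0` or all `b'_j = 0`. -/
theorem isDomain_tensor {F k B₀ : Type u} [Field F] [IsAlgClosed F] [Field k] [CommRing B₀]
    [IsDomain B₀] [Algebra F k] [Algebra F B₀] [Algebra.FiniteType F B₀] :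
    IsDomain (k ⊗[F] B₀) := by
  have key : IsDomain (B₀ ⊗[F] k) := by
    let bs := Module.Basis.ofVectorSpace F k
    let e := Algebra.TensorProduct.basis B₀ bs
    -- points
    have hpt : ∀ s : B₀, s ≠ 0 → ∃ χ : B₀ →ₐ[F] F, χ s ≠ 0 := by
      intro s hs
      have hnt : Nontrivial (Localization.Away s) := by
        have hle : Submonoid.powers s ≤ nonZeroDivisors B₀ :=
          powers_le_nonZeroDivisors_of_noZeroDivisors hs
        exact (IsLocalization.injective (Localization.Away s) hle).nontrivial
      have hft : Algebra.FiniteType F (Localization.Away s) :=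
        Algebra.FiniteType.trans (S := B₀) inferInstance
          (IsLocalization.finiteType_of_monoid_fg (Submonoid.powers s) _)
      obtain ⟨φ⟩ := exists_point (F := F) (R := Localization.Away s)
      refine ⟨φ.comp (IsScalarTower.toAlgHom F B₀ (Localization.Away s)), ?_⟩
      have h1 : IsUnit (algebraMap B₀ (Localization.Away s) s) :=
        IsLocalization.Away.algebraMap_isUnit s
      exact (h1.map φ).ne_zero
    -- evaluation
    have hev : ∀ (χ : B₀ →ₐ[F] F) (z : B₀ ⊗[F] k) (i : _),
        bs.repr (Algebra.TensorProduct.lid F k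
          (Algebra.TensorProduct.map χ (AlgHom.id F k) z)) i = χ (e.repr z i) := by
      intro χ z i
      induction z using TensorProduct.induction_on with
      | zero => simp
      | add z w hz hw =>
        rw [map_add, map_add, map_add, map_add, Finsupp.add_apply, hz, hw, Finsupp.add_apply,
          map_add]
      | tmul b c =>
        rw [Algebra.TensorProduct.map_tmul, Algebra.TensorProduct.lid_tmul, AlgHom.id_apply,
          map_smul, Finsupp.smul_apply, Algebra.TensorProduct.basis_repr_tmul,
          Finsupp.smul_apply, Finsupp.mapRange_apply, smul_eq_mul, smul_eq_mul, map_mul,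
          AlgHom.commutes]
        rfl
    have hnt : Nontrivial (B₀ ⊗[F] k) := inferInstance
    have hnz : NoZeroDivisors (B₀ ⊗[F] k) := by
      refine ⟨fun {z w} hzw => ?_⟩
      by_contra hcon
      rw [not_or] at hcon
      obtain ⟨hz, hw⟩ := hcon
      obtain ⟨i, hi⟩ : ∃ i, e.repr z i ≠ 0 := by
        by_contra hno
        push Not at hno
        exact hz ((LinearEquiv.map_eq_zero_iff e.repr).1 (Finsupp.ext hno))
      obtain ⟨j, hj⟩ : ∃ j, e.repr w j ≠ 0 := by
        by_contra hno
        push Not at hno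
        exact hw ((LinearEquiv.map_eq_zero_iff e.repr).1 (Finsupp.ext hno))
      obtain ⟨χ, hχ⟩ := hpt _ (mul_ne_zero hi hj)
      rw [map_mul] at hχ
      let E : B₀ ⊗[F] k →ₐ[F] k := (Algebra.TensorProduct.lid F k).toAlgHom.comp
        (Algebra.TensorProduct.map χ (AlgHom.id F k))
      have hEz : E z ≠ 0 := by
        intro h0
        apply left_ne_zero_of_mul hχ
        rw [← hev χ z i]
        change bs.repr (E z) i = 0
        rw [h0]
        simp
      have hEw : E w ≠ 0 := by
        intro h0
        apply right_ne_zero_of_mul hχ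
        rw [← hev χ w j]
        change bs.repr (E w) j = 0
        rw [h0]
        simp
      apply mul_ne_zero hEz hEw
      rw [← map_mul, hzw, map_zero]
    exact NoZeroDivisors.to_isDomain _
  exact (Algebra.TensorProduct.comm F k B₀).toMulEquiv.isDomain (B₀ ⊗[F] k)
-- END NA4

-- BEGIN NA5
/-- (NA5) = (NA4) for pushouts: `D` is isomorphic to `k ⊗[F] B₀` (`CommRingCat.isPushout_tensorProduct`,
`IsPushout.isoIsPushout` or similar). -/
theorem isDomain_of_isPushout {F k B₀ D : Type u} [Field F] [IsAlgClosed F] [Field k]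
    [CommRing B₀] [IsDomain B₀] [CommRing D] (φ : F →+* k) (a : F →+* B₀) (ha : a.FiniteType)
    (β : k →+* D) (v : B₀ →+* D)
    (h : IsPushout (CommRingCat.ofHom φ) (CommRingCat.ofHom a) (CommRingCat.ofHom β)
      (CommRingCat.ofHom v)) : IsDomain D := by
  let _ : Algebra F k := φ.toAlgebra
  let _ : Algebra F B₀ := a.toAlgebra
  let _ : Algebra k D := β.toAlgebra
  let _ : Algebra B₀ D := v.toAlgebra
  let _ : Algebra F D := (β.comp φ).toAlgebra
  have t1 : IsScalarTower F k D := IsScalarTower.of_algebraMap_eq' rfl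
  have t2 : IsScalarTower F B₀ D := IsScalarTower.of_algebraMap_eq' (by
    have h1 := h.w
    rw [← CommRingCat.ofHom_comp, ← CommRingCat.ofHom_comp] at h1
    exact congrArg CommRingCat.Hom.hom h1)
  have hft : Algebra.FiniteType F B₀ := ha
  have hp : Algebra.IsPushout F k B₀ D := CommRingCat.isPushout_iff_isPushout.mp h
  have hd : IsDomain (k ⊗[F] B₀) := isDomain_tensor
  exact (Algebra.IsPushout.equiv F k B₀ D).symm.toMulEquiv.isDomain (k ⊗[F] B₀)
-- END NA5

-- BEGIN NA6
/-- (NA6) `v` is `B₀ → k ⊗[F] B₀`, the base change of the injective `F → k` by the flat `F`-module `B₀`. -/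
theorem injective_of_isPushout {F k B₀ D : Type u} [Field F] [CommRing k] [Nontrivial k]
    [CommRing B₀] [CommRing D] (φ : F →+* k) (a : F →+* B₀) (β : k →+* D) (v : B₀ →+* D)
    (h : IsPushout (CommRingCat.ofHom φ) (CommRingCat.ofHom a) (CommRingCat.ofHom β)
      (CommRingCat.ofHom v)) : Function.Injective v := by
  let _ : Algebra F k := φ.toAlgebra
  let _ : Algebra F B₀ := a.toAlgebra
  let _ : Algebra k D := β.toAlgebra
  let _ : Algebra B₀ D := v.toAlgebra
  let _ : Algebra F D := (β.comp φ).toAlgebra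
  have t1 : IsScalarTower F k D := IsScalarTower.of_algebraMap_eq' rfl
  have t2 : IsScalarTower F B₀ D := IsScalarTower.of_algebraMap_eq' (by
    have h1 := h.w
    rw [← CommRingCat.ofHom_comp, ← CommRingCat.ofHom_comp] at h1
    exact congrArg CommRingCat.Hom.hom h1)
  have hp : Algebra.IsPushout F k B₀ D := CommRingCat.isPushout_iff_isPushout.mp h
  have hinj : Function.Injective (Algebra.TensorProduct.includeRight : B₀ →ₐ[F] k ⊗[F] B₀) :=
    Algebra.TensorProduct.includeRight_injective (algebraMap F k).injective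
  have h2 : ∀ z : B₀, v z = Algebra.IsPushout.equiv F k B₀ D (1 ⊗ₜ z) := by
    intro z
    rw [Algebra.IsPushout.equiv_tmul, map_one, one_mul]
    rfl
  intro z w hzw
  rw [h2, h2] at hzw
  exact hinj ((Algebra.IsPushout.equiv F k B₀ D).injective hzw)
-- END NA6

-- BEGIN NA7
/-- (NA7) The integral closure of `R₀ = O ⊗ B₀` in `B = K ⊗ B₀`, for `B₀` smooth over `F` and `O` integrally
closed in `K`: `R₀` is smooth over `O` (base change), `B = R₀ ⊗_O K` (pasting of pushouts: `IsPushout.of_top/of_left`), and
`TensorProduct.toIntegralClosure_bijective_of_smooth` (Mathlib.RingTheory.Smooth.IntegralClosure) for `R = O`, `S = R₀`, `B = K`, where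
`integralClosure O K = ⊥`. Injectivity of `r`: `O → K` injective and `R₀` flat over `O`. -/
theorem integral_mem_range {F O K B₀ R₀ B : Type u} [Field F] [CommRing O] [CommRing K]
    [CommRing B₀] [CommRing R₀] [CommRing B] [Algebra O K] [IsIntegrallyClosedIn O K]
    (φ : F →+* O) (a : F →+* B₀) (ha : a.Smooth) (α : O →+* R₀) (v : B₀ →+* R₀)
    (h : IsPushout (CommRingCat.ofHom φ) (CommRingCat.ofHom a) (CommRingCat.ofHom α)
      (CommRingCat.ofHom v)) (b : K →+* B) (r : R₀ →+* B) (hr : r.comp α = b.comp (algebraMap O K))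
    (h' : IsPushout (CommRingCat.ofHom ((algebraMap O K).comp φ)) (CommRingCat.ofHom a)
      (CommRingCat.ofHom b) (CommRingCat.ofHom (r.comp v))) :
    Function.Injective r ∧ ∀ y : B, r.IsIntegralElem y → y ∈ r.range := by
  -- the right square is a pushout
  have hsq : IsPushout (CommRingCat.ofHom (algebraMap O K)) (CommRingCat.ofHom α)
      (CommRingCat.ofHom b) (CommRingCat.ofHom r) := by
    rw [CommRingCat.ofHom_comp, CommRingCat.ofHom_comp] at h'
    refine IsPushout.of_left h' ?_ h
    rw [← CommRingCat.ofHom_comp, ← CommRingCat.ofHom_comp, hr]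
  -- `R₀` is smooth over `O`
  let _ : Algebra F O := φ.toAlgebra
  let _ : Algebra F B₀ := a.toAlgebra
  let _ : Algebra O R₀ := α.toAlgebra
  let _ : Algebra B₀ R₀ := v.toAlgebra
  let _ : Algebra F R₀ := (α.comp φ).toAlgebra
  have t1 : IsScalarTower F O R₀ := IsScalarTower.of_algebraMap_eq' rfl
  have t2 : IsScalarTower F B₀ R₀ := IsScalarTower.of_algebraMap_eq' (by
    have h1 := h.w
    rw [← CommRingCat.ofHom_comp, ← CommRingCat.ofHom_comp] at h1
    exact congrArg CommRingCat.Hom.hom h1)
  have hp : Algebra.IsPushout F O B₀ R₀ := CommRingCat.isPushout_iff_isPushout.mp h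
  have hsm0 : Algebra.Smooth F B₀ := ha
  have hsm : Algebra.Smooth O R₀ :=
    Algebra.Smooth.of_equiv (Algebra.IsPushout.equiv F O B₀ R₀)
  have hfl : Module.Flat O R₀ := inferInstance
  -- the algebra structures on `B`
  let _ : Algebra K B := b.toAlgebra
  let _ : Algebra R₀ B := r.toAlgebra
  let _ : Algebra O B := (b.comp (algebraMap O K)).toAlgebra
  have t3 : IsScalarTower O K B := IsScalarTower.of_algebraMap_eq' rfl
  have t4 : IsScalarTower O R₀ B := IsScalarTower.of_algebraMap_eq' hr.symm
  have hq : Algebra.IsPushout O K R₀ B := CommRingCat.isPushout_iff_isPushout.mp hsq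
  have hq' : Algebra.IsPushout O R₀ K B := hq.symm
  let e := Algebra.IsPushout.equiv O R₀ K B
  have he : ∀ s : R₀, r s = e (s ⊗ₜ 1) := by
    intro s
    rw [Algebra.IsPushout.equiv_tmul, map_one, mul_one]
    rfl
  have hOK := isIntegrallyClosedIn_iff.1 (inferInstance : IsIntegrallyClosedIn O K)
  have hinj : Function.Injective (Algebra.TensorProduct.includeLeft : R₀ →ₐ[R₀] R₀ ⊗[O] K) :=
    Algebra.TensorProduct.includeLeft_injective hOK.1
  refine ⟨fun z w hzw => ?_, fun y hy => ?_⟩
  · rw [he, he] at hzw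
    exact hinj (e.injective hzw)
  · have hy' : IsIntegral R₀ y := hy
    have hy2 : IsIntegral R₀ (e.symm y) := hy'.map e.symm
    obtain ⟨z, hz⟩ := (TensorProduct.toIntegralClosure_bijective_of_smooth
      (R := O) (S := R₀) (B := K)).2 ⟨e.symm y, hy2⟩
    have hz' : ((TensorProduct.toIntegralClosure O R₀ K z : integralClosure R₀ (R₀ ⊗[O] K)) :
        R₀ ⊗[O] K) = e.symm y := congrArg Subtype.val hz
    have hgen : ∀ z : R₀ ⊗[O] integralClosure O K,
        ∃ s : R₀, ((TensorProduct.toIntegralClosure O R₀ K z :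
          integralClosure R₀ (R₀ ⊗[O] K)) : R₀ ⊗[O] K) = s ⊗ₜ 1 := by
      intro z
      induction z using TensorProduct.induction_on with
      | zero => exact ⟨0, by rw [map_zero, TensorProduct.zero_tmul]; rfl⟩
      | add z w hz hw =>
        obtain ⟨s, hs⟩ := hz
        obtain ⟨t, ht⟩ := hw
        refine ⟨s + t, ?_⟩
        rw [map_add, TensorProduct.add_tmul, ← hs, ← ht]
        rfl
      | tmul s t =>
        obtain ⟨o, ho⟩ := hOK.2 t.2
        refine ⟨o • s, ?_⟩
        change s ⊗ₜ[O] (t : K) = _
        rw [← ho, Algebra.algebraMap_eq_smul_one, TensorProduct.tmul_smul,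
          TensorProduct.smul_tmul']
    obtain ⟨s, hs⟩ := hgen z
    refine ⟨s, ?_⟩
    rw [he, ← hs, hz', AlgEquiv.apply_symm_apply]
-- END NA7

-- BEGIN NA8
/-- (NA8) The integral closure of `A = O ⊗ P` in `B = K ⊗ B₀`, for `B₀` finite étale over `P`, `B₀` smooth
over `F` and `O` integrally closed in `K`. Let `R₀ = O ⊗[F] B₀` (Algebra.TensorProduct), `r : R₀ → B` from `O → K → B` and `w`; `A → R₀` from the
pushout `hA`, it is the base change of `τ` (pasting of pushouts), hence étale and finite (`RingHom.Etale.isStableUnderBaseChange`, `RingHom.finite_isStableUnderBaseChange`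
or similar). By (NA7) `r` is injective with range the set of the elements integral over `R₀`, equivalently over `A` (`R₀` is finite over `A`), so
`r` is an isomorphism of `R₀` with `integralClosure A B`. -/
theorem integralClosure_of_constant {F O K P A B B₀ : Type u} [Field F] [CommRing O] [CommRing K]
    [CommRing P] [CommRing A] [CommRing B] [CommRing B₀] [Algebra O K] [IsIntegrallyClosedIn O K]
    (φ : F →+* O) (a : F →+* P) (α : O →+* A) (p : P →+* A)
    (hA : IsPushout (CommRingCat.ofHom φ) (CommRingCat.ofHom a) (CommRingCat.ofHom α)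
      (CommRingCat.ofHom p))
    (b : K →+* B) [Algebra A B] (hq : (algebraMap A B).comp α = b.comp (algebraMap O K))
    (τ : P →+* B₀) (w : B₀ →+* B) (hw : w.comp τ = (algebraMap A B).comp p) (hτ : τ.Etale)
    (hτf : τ.Finite) (hs : (τ.comp a).Smooth)
    (hB : IsPushout (CommRingCat.ofHom ((algebraMap O K).comp φ)) (CommRingCat.ofHom (τ.comp a))
      (CommRingCat.ofHom b) (CommRingCat.ofHom w)) :
    (algebraMap A (integralClosure A B)).Etale ∧ (algebraMap A (integralClosure A B)).Finite ∧
      ∃ v : B₀ →+* integralClosure A B, v.comp τ = (algebraMap A (integralClosure A B)).comp p ∧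
        IsPushout (CommRingCat.ofHom φ) (CommRingCat.ofHom (τ.comp a))
          (CommRingCat.ofHom ((algebraMap A (integralClosure A B)).comp α))
          (CommRingCat.ofHom v) := by
  let _ : Algebra P A := p.toAlgebra
  let _ : Algebra P B₀ := τ.toAlgebra
  let _ : Algebra P B := ((algebraMap A B).comp p).toAlgebra
  have t1 : IsScalarTower P A B := IsScalarTower.of_algebraMap_eq' rfl
  have hE : Algebra.Etale P B₀ := hτ
  have hF : Module.Finite P B₀ := hτf
  let w' : B₀ →ₐ[P] B := { w with commutes' := fun x => congrArg (fun g : P →+* B => g x) hw }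
  let r : A ⊗[P] B₀ →ₐ[A] B :=
    Algebra.TensorProduct.lift (Algebra.ofId A B) w' (fun _ _ => Commute.all _ _)
  have hr1 : ∀ x : A, r (x ⊗ₜ 1) = algebraMap A B x := by
    intro x
    rw [Algebra.TensorProduct.lift_tmul, map_one, mul_one]
    rfl
  have hr2 : ∀ z : B₀, r (1 ⊗ₜ z) = w z := by
    intro z
    rw [Algebra.TensorProduct.lift_tmul, map_one, one_mul]
    rfl
  -- pasting
  have hR : IsPushout (CommRingCat.ofHom φ) (CommRingCat.ofHom (τ.comp a))
      (CommRingCat.ofHom ((algebraMap A (A ⊗[P] B₀)).comp α))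
      (CommRingCat.ofHom
        ((Algebra.TensorProduct.includeRight : B₀ →ₐ[P] A ⊗[P] B₀) : B₀ →+* A ⊗[P] B₀)) := by
    have h1 := CommRingCat.isPushout_tensorProduct P A B₀
    have h2 := hA.flip.paste_horiz h1.flip
    have h3 := h2.flip
    rw [← CommRingCat.ofHom_comp, ← CommRingCat.ofHom_comp] at h3
    exact h3
  have key := integral_mem_range φ (τ.comp a) hs ((algebraMap A (A ⊗[P] B₀)).comp α)
    ((Algebra.TensorProduct.includeRight : B₀ →ₐ[P] A ⊗[P] B₀) : B₀ →+* A ⊗[P] B₀) hR b
    (r : A ⊗[P] B₀ →+* B) (by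
      rw [← hq]
      ext o
      exact hr1 (α o)) (by
      have h1 : (r : A ⊗[P] B₀ →+* B).comp
          ((Algebra.TensorProduct.includeRight : B₀ →ₐ[P] A ⊗[P] B₀) : B₀ →+* A ⊗[P] B₀) = w := by
        ext z
        exact hr2 z
      rw [h1]
      exact hB)
  obtain ⟨hinj, hrange⟩ := key
  have hmem : ∀ z : A ⊗[P] B₀, r z ∈ integralClosure A B := by
    intro z
    have hz : IsIntegral A z := Algebra.IsIntegral.isIntegral z
    exact hz.map r
  let e₀ : A ⊗[P] B₀ →ₐ[A] integralClosure A B := r.codRestrict _ hmem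
  have hbij : Function.Bijective e₀ := by
    constructor
    · intro z z' hzz
      exact hinj (congrArg Subtype.val hzz)
    · rintro ⟨y, hy⟩
      have hy' : (r : A ⊗[P] B₀ →+* B).IsIntegralElem y := by
        obtain ⟨f, hf, hf0⟩ := hy
        refine ⟨f.map (algebraMap A (A ⊗[P] B₀)), hf.map _, ?_⟩
        rw [eval₂_map]
        have h1 : (r : A ⊗[P] B₀ →+* B).comp (algebraMap A (A ⊗[P] B₀)) = algebraMap A B := by
          ext x
          exact hr1 x
        rw [h1]
        exact hf0
      obtain ⟨z, hz⟩ := hrange y hy'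
      exact ⟨z, Subtype.ext hz⟩
  let e : A ⊗[P] B₀ ≃ₐ[A] integralClosure A B := AlgEquiv.ofBijective e₀ hbij
  have hE2 : Algebra.Etale A (integralClosure A B) := Algebra.Etale.of_equiv e
  have hF2 : Module.Finite A (integralClosure A B) := Module.Finite.equiv e.toLinearEquiv
  refine ⟨RingHom.etale_algebraMap.2 hE2, RingHom.finite_algebraMap.2 hF2,
    (e : A ⊗[P] B₀ →+* integralClosure A B).comp
      ((Algebra.TensorProduct.includeRight : B₀ →ₐ[P] A ⊗[P] B₀) : B₀ →+* A ⊗[P] B₀), ?_, ?_⟩
  · ext x
    change r (1 ⊗ₜ τ x) = algebraMap A B (p x)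
    rw [hr2]
    exact congrArg (fun g : P →+* B => g x) hw
  · refine IsPushout.of_iso hR (Iso.refl _) (Iso.refl _) (Iso.refl _)
      e.toRingEquiv.toCommRingCatIso (by simp) (by simp) ?_ ?_
    · ext o
      exact congrArg Subtype.val (e.commutes (α o))
    · ext z
      rfl
-- END NA8

-- BEGIN NA9
private theorem NA9_lam {F K P D : Type u} [CommRing F] [CommRing K] [CommRing P] [CommRing D]
    [Algebra F K] [Algebra F P] (β : K →+* D) (p : P →+* D)
    (hD : IsPushout (CommRingCat.ofHom (algebraMap F K)) (CommRingCat.ofHom (algebraMap F P))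
      (CommRingCat.ofHom β) (CommRingCat.ofHom p)) :
    ∃ E : K ⊗[F] P ≃+* D, (∀ k, E (k ⊗ₜ 1) = β k) ∧ ∀ y, E (1 ⊗ₜ y) = p y := by
  let I := (CommRingCat.isPushout_tensorProduct F K P).isoIsPushout _ _ hD
  refine ⟨I.commRingCatIsoToRingEquiv, fun k => ?_, fun y => ?_⟩
  · have h := (CommRingCat.isPushout_tensorProduct F K P).inl_isoIsPushout_hom _ _ hD
    exact congr($(h).hom k)
  · have h := (CommRingCat.isPushout_tensorProduct F K P).inr_isoIsPushout_hom _ _ hD
    exact congr($(h).hom y)

private theorem NA9_etale {F K P D B : Type u} [CommRing F] [CommRing K] [CommRing P] [CommRing D]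
    [CommRing B] [Algebra F K] [Algebra F P] [Algebra F B] [Algebra K B] [Algebra P B]
    [IsScalarTower F K B] [IsScalarTower F P B] (β : K →+* D) (p : P →+* D)
    (hD : IsPushout (CommRingCat.ofHom (algebraMap F K)) (CommRingCat.ofHom (algebraMap F P))
      (CommRingCat.ofHom β) (CommRingCat.ofHom p)) (q : D →+* B) (hq : q.Etale) (hqf : q.Finite)
    (hqb : q.comp β = algebraMap K B) (hqm : q.comp p = algebraMap P B) :
    (lam F K P B).Etale ∧ (lam F K P B).Finite := by
  obtain ⟨E, hE1, hE2⟩ := NA9_lam β p hD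
  have h : lam F K P B = q.comp (E : K ⊗[F] P →+* D) := by
    refine RingHom.ext fun z => ?_
    induction z using TensorProduct.induction_on with
    | zero => rw [map_zero, map_zero]
    | add z w hz hw => rw [map_add, map_add, hz, hw]
    | tmul k y =>
      have h1 : (k ⊗ₜ[F] y : K ⊗[F] P) = (k ⊗ₜ 1) * (1 ⊗ₜ y) := by
        rw [Algebra.TensorProduct.tmul_mul_tmul, mul_one, one_mul]
      have h2 : lam F K P B (k ⊗ₜ y) = algebraMap K B k * algebraMap P B y := rfl
      rw [h2, h1]
      change _ = q (E _)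
      rw [map_mul, map_mul, hE1, hE2, ← hqb, ← hqm]
      rfl
  rw [h]
  refine ⟨?_, ?_⟩
  · have h5 : (E : K ⊗[F] P →+* D).Etale := RingHom.Etale.of_bijective (by exact E.bijective)
    exact RingHom.Etale.stableUnderComposition _ _ h5 hq
  · exact RingHom.Finite.comp hqf (RingHom.Finite.of_surjective _ E.surjective)

/-- (NA9) The main theorem `constant_cover` (T/Main.lean) in the form of homomorphisms: introduce all the algebra
structures by `RingHom.toAlgebra` (`Algebra F B` by `b.comp φ`, ...), the scalar towers by `IsScalarTower.of_algebraMap_eq'`; `lam F K P B` is the composition of the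
isomorphism `K ⊗[F] P ≅ D` (from `hD`) with `q`. -/
theorem constant_cover_hom {F K P P' Q B B' G : Type u} [Field F] [IsAlgClosed F] [Field K]
    [IsAlgClosed K] [CommRing P] [CommRing P'] [CommRing Q] [CommRing B] [CommRing B']
    [CommRing G] (φ : F →+* K) (a : F →+* P) (a' : F →+* P') (r : P →+* Q) (r' : P' →+* Q)
    (har : r.comp a = r'.comp a') (b : K →+* B) (b' : K →+* B') (ρ : B →+* G) (ρ' : B' →+* G)
    (hb : ρ.comp b = ρ'.comp b') (m : P →+* B) (m' : P' →+* B') (μ : Q →+* G)
    (hm : m.comp a = b.comp φ) (hm' : m'.comp a' = b'.comp φ) (hμ : μ.comp r = ρ.comp m)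
    (hμ' : μ.comp r' = ρ'.comp m') (x : P) (x' : P') (hx : r x * r' x' = 1)
    (hl : @IsLocalization.Away P _ x Q _ r.toAlgebra)
    (hl' : @IsLocalization.Away P' _ x' Q _ r'.toAlgebra)
    (hP : @FreeOver F P _ _ a.toAlgebra x) (hP' : @FreeOver F P' _ _ a'.toAlgebra x')
    {D D' : Type u} [CommRing D] [CommRing D'] (β : K →+* D) (β' : K →+* D') (p : P →+* D)
    (p' : P' →+* D')
    (hD : IsPushout (CommRingCat.ofHom φ) (CommRingCat.ofHom a) (CommRingCat.ofHom β)
      (CommRingCat.ofHom p))
    (hD' : IsPushout (CommRingCat.ofHom φ) (CommRingCat.ofHom a') (CommRingCat.ofHom β')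
      (CommRingCat.ofHom p')) (q : D →+* B) (q' : D' →+* B') (hq : q.Etale) (hq' : q'.Etale)
    (hqf : q.Finite) (hqf' : q'.Finite) (hqb : q.comp β = b) (hqb' : q'.comp β' = b')
    (hqm : q.comp p = m) (hqm' : q'.comp p' = m')
    (hG : @IsLocalization.Away B _ (m x) G _ ρ.toAlgebra)
    (hG' : @IsLocalization.Away B' _ (m' x') G _ ρ'.toAlgebra) :
    ∃ (B₀ : Type u) (_ : CommRing B₀) (τ : P →+* B₀) (w : B₀ →+* B), τ.Etale ∧ τ.Finite ∧
      w.comp τ = m ∧ IsPushout (CommRingCat.ofHom φ) (CommRingCat.ofHom (τ.comp a))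
        (CommRingCat.ofHom b) (CommRingCat.ofHom w) := by
  let _ : Algebra F K := φ.toAlgebra
  let _ : Algebra F P := a.toAlgebra
  let _ : Algebra F P' := a'.toAlgebra
  let _ : Algebra F Q := (r.comp a).toAlgebra
  let _ : Algebra P Q := r.toAlgebra
  let _ : Algebra P' Q := r'.toAlgebra
  let _ : Algebra K B := b.toAlgebra
  let _ : Algebra P B := m.toAlgebra
  let _ : Algebra F B := (b.comp φ).toAlgebra
  let _ : Algebra K B' := b'.toAlgebra
  let _ : Algebra P' B' := m'.toAlgebra
  let _ : Algebra F B' := (b'.comp φ).toAlgebra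
  let _ : Algebra B G := ρ.toAlgebra
  let _ : Algebra B' G := ρ'.toAlgebra
  let _ : Algebra K G := (ρ.comp b).toAlgebra
  let _ : Algebra F G := ((ρ.comp b).comp φ).toAlgebra
  let _ : Algebra P G := (ρ.comp m).toAlgebra
  let _ : Algebra P' G := (ρ'.comp m').toAlgebra
  let _ : Algebra Q G := μ.toAlgebra
  have t1 : IsScalarTower F P Q := IsScalarTower.of_algebraMap_eq' rfl
  have t2 : IsScalarTower F P' Q := IsScalarTower.of_algebraMap_eq' har
  have t3 : IsScalarTower F K B := IsScalarTower.of_algebraMap_eq' rfl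
  have t4 : IsScalarTower F P B := IsScalarTower.of_algebraMap_eq' hm.symm
  have t5 : IsScalarTower F K B' := IsScalarTower.of_algebraMap_eq' rfl
  have t6 : IsScalarTower F P' B' := IsScalarTower.of_algebraMap_eq' hm'.symm
  have t7 : IsScalarTower F K G := IsScalarTower.of_algebraMap_eq' rfl
  have t8 : IsScalarTower P Q G := IsScalarTower.of_algebraMap_eq' hμ.symm
  have t9 : IsScalarTower P' Q G := IsScalarTower.of_algebraMap_eq' hμ'.symm
  have t10 : IsScalarTower F Q G := IsScalarTower.of_algebraMap_eq' (by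
    change (ρ.comp b).comp φ = μ.comp (r.comp a)
    rw [← RingHom.comp_assoc, hμ, RingHom.comp_assoc, RingHom.comp_assoc, hm])
  have t11 : IsScalarTower K B G := IsScalarTower.of_algebraMap_eq' rfl
  have t12 : IsScalarTower K B' G := IsScalarTower.of_algebraMap_eq' hb
  have t13 : IsScalarTower P B G := IsScalarTower.of_algebraMap_eq' rfl
  have t14 : IsScalarTower P' B' G := IsScalarTower.of_algebraMap_eq' rfl
  have l1 : IsLocalization.Away x Q := hl
  have l2 : IsLocalization.Away x' Q := hl'
  have l3 : IsLocalization.Away (algebraMap P B x) G := hG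
  have l4 : IsLocalization.Away (algebraMap P' B' x') G := hG'
  obtain ⟨e1, e2⟩ := NA9_etale (F := F) (K := K) (P := P) (B := B) β p hD q hq hqf hqb hqm
  obtain ⟨e3, e4⟩ := NA9_etale (F := F) (K := K) (P := P') (B := B') β' p' hD' q' hq' hqf' hqb' hqm'
  obtain ⟨B₀, i1, i2, i3, i4, h1, h2, Φ, hΦ⟩ := constant_cover (F := F) (K := K) (P := P)
    (P' := P') (Q := Q) (B := B) (B' := B') (G := G) x x' hx hP hP' e1 e2 e3 e4
  let w : B₀ →+* B := (Φ : K ⊗[F] B₀ →+* B).comp
    (Algebra.TensorProduct.includeRight (R := F) (A := K) (B := B₀)).toRingHom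
  have hw : w.comp (algebraMap P B₀) = m := by
    refine RingHom.ext fun y => ?_
    exact hΦ y
  refine ⟨B₀, i1, algebraMap P B₀, w, ?_, ?_, hw, ?_⟩
  · rw [RingHom.etale_algebraMap]
    exact h1
  · rw [RingHom.finite_algebraMap]
    exact h2
  · have h3 : (algebraMap P B₀).comp a = algebraMap F B₀ :=
      (IsScalarTower.algebraMap_eq F P B₀).symm
    rw [h3]
    refine (CommRingCat.isPushout_tensorProduct F K B₀).of_iso (Iso.refl _) (Iso.refl _)
      (Iso.refl _) (RingEquiv.toCommRingCatIso Φ.toRingEquiv) ?_ ?_ ?_ ?_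
    · ext; rfl
    · ext; rfl
    · ext k
      change Φ (k ⊗ₜ 1) = b k
      have h4 := Φ.commutes k
      rw [Algebra.TensorProduct.algebraMap_apply] at h4
      exact h4
    · ext y
      rfl
-- END NA9

end Pool.Agent.Lib.MP_211349_ag
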