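import Pool.Agent.Lib.MP_211349_ag.N.Sec
import Pool.Agent.Lib.MP_211349_ag.N.Alg
import Pool.Agent.Lib.MP_211349_ag.Defs

/-!
# PART N: geometry
-/

open CategoryTheory Limits AlgebraicGeometry Polynomial

universe u

noncomputable section

namespace Pool.Agent.Lib.MP_211349_ag

/-- A scheme over `R` with two affine charts. -/
structure TwoCharts {R : Type u} [CommRing R] {X : Scheme.{u}} (s : X ⟶ Spec (.of R)) where
  /-- the first chart -/
  U : X.Opens
  /-- the second chart -/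
  U' : X.Opens
  isAffine : IsAffineOpen U
  isAffine' : IsAffineOpen U'
  cover : U ⊔ U' = ⊤
  /-- the coordinate on the first chart -/
  x : Γ(X, U)
  /-- the coordinate on the second chart -/
  x' : Γ(X, U')
  inf_eq : U ⊓ U' = X.basicOpen x
  inf_eq' : U' ⊓ U = X.basicOpen x'
  mul_eq : (X.presheaf.map (homOfLE (inf_le_left : U ⊓ U' ≤ U)).op).hom x *
    (X.presheaf.map (homOfLE (inf_le_right : U ⊓ U' ≤ U')).op).hom x' = 1
  free : @FreeOver R Γ(X, U) _ _ (str s U).toAlgebra x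
  free' : @FreeOver R Γ(X, U') _ _ (str s U').toAlgebra x'
  nontrivial : Nontrivial Γ(X, U)
  nontrivial' : Nontrivial Γ(X, U')

-- BEGIN NG1
/-- (NG1) The two charts exchanged. Only `mul_eq` (over `U' ⊓ U` instead of `U ⊓ U'`) is to be proved. -/
def TwoCharts.symm {R : Type u} [CommRing R] {X : Scheme.{u}} {s : X ⟶ Spec (.of R)}
    (T : TwoCharts s) : TwoCharts s where
  U := T.U'
  U' := T.U
  isAffine := T.isAffine'
  isAffine' := T.isAffine
  cover := by rw [sup_comm, T.cover]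
  x := T.x'
  x' := T.x
  inf_eq := T.inf_eq'
  inf_eq' := T.inf_eq
  mul_eq := by
    have h := congrArg (X.presheaf.map (homOfLE (le_of_eq (inf_comm T.U' T.U))).op).hom T.mul_eq
    rw [map_mul, map_one, ← CommRingCat.comp_apply, ← CommRingCat.comp_apply,
      ← Functor.map_comp, ← Functor.map_comp, mul_comm] at h
    exact h
  free := T.free'
  free' := T.free
  nontrivial := T.nontrivial'
  nontrivial' := T.nontrivial
-- END NG1

-- BEGIN NG2
/-- (NG2) The restriction to a basic open subset (in the form of an intersection) is a localization: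
`IsAffineOpen.isLocalization_basicOpen` (generalize the open subset `U ⊓ U'` first, then `subst`). -/
theorem isLocalization_inf {X : Scheme.{u}} {U U' : X.Opens} (hU : IsAffineOpen U) (x : Γ(X, U))
    (h : U ⊓ U' = X.basicOpen x) :
    @IsLocalization.Away Γ(X, U) _ x Γ(X, U ⊓ U') _
      (X.presheaf.map (homOfLE (inf_le_left : U ⊓ U' ≤ U)).op).hom.toAlgebra := by
  have key : ∀ (W : X.Opens) (hW : W ≤ U), W = X.basicOpen x →
      @IsLocalization.Away Γ(X, U) _ x Γ(X, W) _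
        (X.presheaf.map (homOfLE hW).op).hom.toAlgebra := by
    intro W hW hWx
    subst hWx
    exact hU.isLocalization_basicOpen x
  exact key _ _ h
-- END NG2

-- BEGIN NG3
/-- (NG3) = (NG2) for the preimages under an affine morphism (`f ⁻¹ᵁ U` is affine, `f ⁻¹ᵁ (U ⊓ U')` is the basic open
subset of `(f.app U).hom x`: `Scheme.preimage_basicOpen`). -/
theorem isLocalization_preimage {X Y : Scheme.{u}} (f : Y ⟶ X) [IsAffineHom f] {U U' : X.Opens}
    (hU : IsAffineOpen U) (x : Γ(X, U)) (h : U ⊓ U' = X.basicOpen x) :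
    @IsLocalization.Away Γ(Y, f ⁻¹ᵁ U) _ ((f.app U).hom x) Γ(Y, f ⁻¹ᵁ (U ⊓ U')) _
      (Y.presheaf.map (homOfLE (f.preimage_mono (inf_le_left : U ⊓ U' ≤ U))).op).hom.toAlgebra := by
  have key : ∀ (W : Y.Opens) (hW : W ≤ f ⁻¹ᵁ U), W = Y.basicOpen ((f.app U).hom x) →
      @IsLocalization.Away Γ(Y, f ⁻¹ᵁ U) _ ((f.app U).hom x) Γ(Y, W) _
        (Y.presheaf.map (homOfLE hW).op).hom.toAlgebra := by
    intro W hW hWx
    subst hWx
    exact (hU.preimage f).isLocalization_basicOpen ((f.app U).hom x)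
  refine key _ _ ?_
  rw [h, Scheme.preimage_basicOpen]
-- END NG3

-- BEGIN NG4
private theorem NG4_loc {X : Scheme.{u}} {U W : X.Opens} (hU : IsAffineOpen U) (hW : W ≤ U)
    (x : Γ(X, U)) (h : W = X.basicOpen x) :
    @IsLocalization.Away Γ(X, U) _ x Γ(X, W) _ (X.presheaf.map (homOfLE hW).op).hom.toAlgebra := by
  subst h
  exact hU.isLocalization_basicOpen x

/-- (NG4) The covering `π : C → Y = X ⊗_F K` is constant over the first chart: `constant_cover_hom` (NA9) for
`P = Γ(X, U)`, `P' = Γ(X, U')`, `Q = Γ(X, U ⊓ U')`, `D = Γ(Y, i ⁻¹ᵁ U)`, `B = Γ(C, π ⁻¹ᵁ (i ⁻¹ᵁ U))`, `G = Γ(C, π ⁻¹ᵁ (i ⁻¹ᵁ (U ⊓ U')))`; structure homomorphisms `str`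
(lemmas `str_map`, `str_app`, `str_base` of N/Sec.lean), pushouts by `sec_pullback`, localizations by (NG2), (NG3) (for the affine morphism `π ≫ i`; `i` is
affine as base change of a morphism of affine schemes), `(π.app _).hom` étale and finite (`Etale`, `IsFinite` on affine opens). -/
theorem exists_constant {F K : Type u} [Field F] [IsAlgClosed F] [Field K] [IsAlgClosed K]
    (φ : F →+* K) {X Y C : Scheme.{u}} {s : X ⟶ Spec (.of F)} {t : Y ⟶ Spec (.of K)} {i : Y ⟶ X}
    (H : IsPullback i t s (Spec.map (CommRingCat.ofHom φ))) (T : TwoCharts s) (π : C ⟶ Y)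
    [IsFinite π] [Etale π] :
    ∃ (B₀ : Type u) (_ : CommRing B₀) (τ : Γ(X, T.U) →+* B₀)
      (w : B₀ →+* Γ(C, π ⁻¹ᵁ (i ⁻¹ᵁ T.U))), τ.Etale ∧ τ.Finite ∧
      w.comp τ = (π.app (i ⁻¹ᵁ T.U)).hom.comp (i.app T.U).hom ∧
      IsPushout (CommRingCat.ofHom φ) (CommRingCat.ofHom (τ.comp (str s T.U)))
        (CommRingCat.ofHom (str (π ≫ t) (π ⁻¹ᵁ (i ⁻¹ᵁ T.U)))) (CommRingCat.ofHom w) := by
  have hi : IsAffineHom i :=
    MorphismProperty.of_isPullback (P := @IsAffineHom) H.flip (inferInstance : IsAffineHom (Spec.map (CommRingCat.ofHom φ)))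
  have hiU : IsAffineOpen (i ⁻¹ᵁ T.U) := T.isAffine.preimage i
  have hiU' : IsAffineOpen (i ⁻¹ᵁ T.U') := T.isAffine'.preimage i
  have hπU : IsAffineOpen (π ⁻¹ᵁ (i ⁻¹ᵁ T.U)) := hiU.preimage π
  have hπU' : IsAffineOpen (π ⁻¹ᵁ (i ⁻¹ᵁ T.U')) := hiU'.preimage π
  have hl := π.preimage_mono (i.preimage_mono (inf_le_left : T.U ⊓ T.U' ≤ T.U))
  have hr := π.preimage_mono (i.preimage_mono (inf_le_right : T.U ⊓ T.U' ≤ T.U'))
  have hbase : ∀ W : X.Opens, ((π.app (i ⁻¹ᵁ W)).hom.comp (i.app W).hom).comp (str s W) =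
      (str (π ≫ t) (π ⁻¹ᵁ (i ⁻¹ᵁ W))).comp φ := by
    intro W
    rw [RingHom.comp_assoc, str_app, str_app, H.w, ← Category.assoc, str_base]
  have hnat : ∀ (W V : X.Opens) (h : V ≤ W),
      ((π.app (i ⁻¹ᵁ V)).hom.comp (i.app V).hom).comp (X.presheaf.map (homOfLE h).op).hom =
      (C.presheaf.map (homOfLE (π.preimage_mono (i.preimage_mono h))).op).hom.comp
        ((π.app (i ⁻¹ᵁ W)).hom.comp (i.app W).hom) := by
    intro W V h
    rw [← CommRingCat.hom_comp, ← CommRingCat.hom_comp, ← CommRingCat.hom_comp,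
      ← CommRingCat.hom_comp]
    congr 1
    simp only [Scheme.Hom.app_eq_appLE, Scheme.Hom.appLE_comp_appLE, Scheme.Hom.map_appLE,
      Scheme.Hom.appLE_map]
  have hD := sec_pullback φ H T.isAffine rfl
  have hD' := sec_pullback φ H T.isAffine' rfl
  rw [← Scheme.Hom.app_eq_appLE] at hD hD'
  have hbas : π ⁻¹ᵁ (i ⁻¹ᵁ (T.U ⊓ T.U')) =
      C.basicOpen (((π.app (i ⁻¹ᵁ T.U)).hom.comp (i.app T.U).hom) T.x) := by
    rw [T.inf_eq, Scheme.preimage_basicOpen, Scheme.preimage_basicOpen]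
    rfl
  have hbas' : π ⁻¹ᵁ (i ⁻¹ᵁ (T.U ⊓ T.U')) =
      C.basicOpen (((π.app (i ⁻¹ᵁ T.U')).hom.comp (i.app T.U').hom) T.x') := by
    rw [inf_comm T.U T.U', T.inf_eq', Scheme.preimage_basicOpen, Scheme.preimage_basicOpen]
    rfl
  exact constant_cover_hom φ (str s T.U) (str s T.U')
    (X.presheaf.map (homOfLE (inf_le_left : T.U ⊓ T.U' ≤ T.U)).op).hom
    (X.presheaf.map (homOfLE (inf_le_right : T.U ⊓ T.U' ≤ T.U')).op).hom
    (by rw [str_map, str_map])
    (str (π ≫ t) (π ⁻¹ᵁ (i ⁻¹ᵁ T.U))) (str (π ≫ t) (π ⁻¹ᵁ (i ⁻¹ᵁ T.U')))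
    (C.presheaf.map (homOfLE hl).op).hom (C.presheaf.map (homOfLE hr).op).hom
    (by rw [str_map, str_map])
    ((π.app (i ⁻¹ᵁ T.U)).hom.comp (i.app T.U).hom) ((π.app (i ⁻¹ᵁ T.U')).hom.comp (i.app T.U').hom)
    ((π.app (i ⁻¹ᵁ (T.U ⊓ T.U'))).hom.comp (i.app (T.U ⊓ T.U')).hom)
    (hbase T.U) (hbase T.U') (hnat _ _ _) (hnat _ _ _) T.x T.x' T.mul_eq
    (NG4_loc T.isAffine _ T.x T.inf_eq)
    (NG4_loc T.isAffine' _ T.x' (by rw [inf_comm T.U T.U', T.inf_eq'])) T.free T.free'
    (str t (i ⁻¹ᵁ T.U)) (str t (i ⁻¹ᵁ T.U')) (i.app T.U).hom (i.app T.U').hom hD hD'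
    (π.app (i ⁻¹ᵁ T.U)).hom (π.app (i ⁻¹ᵁ T.U')).hom
    (by rw [Scheme.Hom.app_eq_appLE]; exact π.etale_appLE hiU hπU _)
    (by rw [Scheme.Hom.app_eq_appLE]; exact π.etale_appLE hiU' hπU' _)
    (π.finite_app _ hiU) (π.finite_app _ hiU') (str_app π t _) (str_app π t _) rfl rfl
    (NG4_loc hπU hl _ hbas) (NG4_loc hπU' hr _ hbas')
-- END NG4

-- BEGIN NG5
/-- (NG5) The normalization over a chart over which the covering is constant: (NA8) `integralClosure_of_constant` for `A = Γ(Y, i ⁻¹ᵁ U)`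
(affine open, pushout by `sec_pullback`), `B = Γ(C, g ⁻¹ᵁ (i ⁻¹ᵁ U))` with `algebraMap = (g.app _).hom`, and `Scheme.Hom.fromNormalization_app`,
`Scheme.Hom.normalizationObjIso` (Mathlib.AlgebraicGeometry.Normalization); structure homomorphisms: `str_app`, `str_base` of N/Sec.lean. `O` is
integrally closed in `K` (valuation ring). -/
theorem chart_normalization {F K : Type u} [Field F] [Field K] (O : ValuationSubring K)
    (φ : F →+* O) {X Y C : Scheme.{u}} {s : X ⟶ Spec (.of F)} {t : Y ⟶ Spec (.of O)} {i : Y ⟶ X}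
    (H : IsPullback i t s (Spec.map (CommRingCat.ofHom φ))) (g : C ⟶ Y) [QuasiCompact g]
    [QuasiSeparated g] (u : C ⟶ Spec (.of K)) (hu : g ≫ t = u ≫ genPt O) (U : X.Opens)
    (hU : IsAffineOpen U) {B₀ : Type u} [CommRing B₀] (τ : Γ(X, U) →+* B₀)
    (w : B₀ →+* Γ(C, g ⁻¹ᵁ (i ⁻¹ᵁ U))) (hτ : τ.Etale) (hτf : τ.Finite)
    (hs : (τ.comp (str s U)).Smooth)
    (hw : w.comp τ = (g.app (i ⁻¹ᵁ U)).hom.comp (i.app U).hom)
    (hB : IsPushout (CommRingCat.ofHom ((algebraMap O K).comp φ))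
      (CommRingCat.ofHom (τ.comp (str s U))) (CommRingCat.ofHom (str u (g ⁻¹ᵁ (i ⁻¹ᵁ U))))
      (CommRingCat.ofHom w)) :
    (g.fromNormalization.app (i ⁻¹ᵁ U)).hom.Finite ∧
      (g.fromNormalization.app (i ⁻¹ᵁ U)).hom.Etale ∧
      ∃ v : B₀ →+* Γ(g.normalization, g.fromNormalization ⁻¹ᵁ (i ⁻¹ᵁ U)),
        v.comp τ = (g.fromNormalization.app (i ⁻¹ᵁ U)).hom.comp (i.app U).hom ∧
        IsPushout (CommRingCat.ofHom φ) (CommRingCat.ofHom (τ.comp (str s U)))
          (CommRingCat.ofHom (str (g.fromNormalization ≫ t)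
            (g.fromNormalization ⁻¹ᵁ (i ⁻¹ᵁ U)))) (CommRingCat.ofHom v) := by
  have hclosed : IsIntegrallyClosedIn O K :=
    (isIntegrallyClosed_iff_isIntegrallyClosedIn K).1 inferInstance
  have haff : IsAffineHom i :=
    MorphismProperty.of_isPullback (P := @IsAffineHom) H.flip inferInstance
  have hV : IsAffineOpen (i ⁻¹ᵁ U) := hU.preimage i
  let _ : Algebra Γ(Y, i ⁻¹ᵁ U) Γ(C, g ⁻¹ᵁ (i ⁻¹ᵁ U)) := (g.app (i ⁻¹ᵁ U)).hom.toAlgebra
  have hA : IsPushout (CommRingCat.ofHom φ) (CommRingCat.ofHom (str s U))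
      (CommRingCat.ofHom (str t (i ⁻¹ᵁ U))) (CommRingCat.ofHom (i.app U).hom) := by
    have h1 := sec_pullback φ H hU (V := i ⁻¹ᵁ U) rfl
    rw [← Scheme.Hom.app_eq_appLE] at h1
    exact h1
  have hq : (algebraMap Γ(Y, i ⁻¹ᵁ U) Γ(C, g ⁻¹ᵁ (i ⁻¹ᵁ U))).comp (str t (i ⁻¹ᵁ U)) =
      (str u (g ⁻¹ᵁ (i ⁻¹ᵁ U))).comp (algebraMap O K) := by
    change (g.app (i ⁻¹ᵁ U)).hom.comp (str t (i ⁻¹ᵁ U)) = _
    rw [str_app, hu, genPt, str_base]
  obtain ⟨h1, h2, v, h3, h4⟩ := integralClosure_of_constant φ (str s U) (str t (i ⁻¹ᵁ U))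
    (i.app U).hom hA (str u (g ⁻¹ᵁ (i ⁻¹ᵁ U))) hq τ w hw hτ hτf hs hB
  let e := g.normalizationObjIso hV
  have happ : (g.fromNormalization.app (i ⁻¹ᵁ U)).hom = e.inv.hom.comp
      (algebraMap Γ(Y, i ⁻¹ᵁ U) (integralClosure Γ(Y, i ⁻¹ᵁ U) Γ(C, g ⁻¹ᵁ (i ⁻¹ᵁ U)))) := by
    have h5 := g.fromNormalization_app hV
    exact congrArg CommRingCat.Hom.hom h5
  have hbij : Function.Bijective e.inv.hom := ConcreteCategory.bijective_of_isIso e.inv
  have het : e.inv.hom.Etale := RingHom.Etale.of_bijective hbij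
  have hfin : e.inv.hom.Finite := RingHom.Finite.of_surjective _ hbij.2
  refine ⟨?_, ?_, e.inv.hom.comp v, ?_, ?_⟩
  · rw [happ]
    exact hfin.comp h2
  · rw [happ]
    exact RingHom.Etale.stableUnderComposition _ _ h1 het
  · rw [RingHom.comp_assoc, h3, happ, RingHom.comp_assoc]
  · refine IsPushout.of_iso h4 (Iso.refl _) (Iso.refl _) (Iso.refl _) e.symm ?_ ?_ ?_ ?_
    · simp
    · simp
    · rw [Iso.refl_hom, Category.id_comp, ← str_app, happ, RingHom.comp_assoc,
        CommRingCat.ofHom_comp]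
      rfl
    · rw [Iso.refl_hom, Category.id_comp, CommRingCat.ofHom_comp]
      rfl
-- END NG5

-- BEGIN NG6
/-- A morphism between affine schemes obtained by restriction: a property of ring homomorphisms
which respects isomorphisms holds for `(f ∣_ U).appTop` if it holds for `f.app U`. -/
theorem NG6_appTop {Q : ∀ {R S : Type u} [CommRing R] [CommRing S], (R →+* S) → Prop}
    (hQ : RingHom.RespectsIso Q) {X Y : Scheme.{u}} (f : X ⟶ Y) (U : Y.Opens)
    (h : Q (f.app U).hom) : Q (f ∣_ U).appTop.hom := by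
  have e : (f ∣_ U).appTop = U.topIso.hom ≫ f.app U ≫ (f ⁻¹ᵁ U).topIso.inv := by
    rw [← Scheme.Hom.resLE_eq_morphismRestrict, Scheme.Hom.appTop, Scheme.Hom.resLE_app_top,
      Scheme.Hom.app_eq_appLE]
  rw [e, CommRingCat.hom_comp, hQ.cancel_left_isIso, CommRingCat.hom_comp,
    hQ.cancel_right_isIso]
  exact h

/-- (NG6) A morphism is finite étale if it is so over two affine opens: local on the target (`IsZariskiLocalAtTarget`,
`HasAffineProperty.iff_of_iSup_eq_top`, `HasRingHomProperty`, or cover by `Opens.ι` and `morphismRestrict`). -/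
theorem finite_etale_of_cover {X Y : Scheme.{u}} (f : X ⟶ Y) [IsAffineHom f] (U U' : Y.Opens)
    (hU : IsAffineOpen U) (hU' : IsAffineOpen U') (hUU' : U ⊔ U' = ⊤)
    (h1 : (f.app U).hom.Finite) (h2 : (f.app U).hom.Etale) (h1' : (f.app U').hom.Finite)
    (h2' : (f.app U').hom.Etale) : IsFinite f ∧ Etale f := by
  have key : ∀ V : Y.Opens, IsAffineOpen V → (f.app V).hom.Finite → (f.app V).hom.Etale →
      IsFinite (f ∣_ V) ∧ Etale (f ∣_ V) := by
    intro V hV hf he
    have a1 : IsAffine V := hV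
    have a2 : IsAffine (f ⁻¹ᵁ V) := hV.preimage f
    constructor
    · rw [HasAffineProperty.iff_of_isAffine (P := @IsFinite)]
      exact ⟨a2, NG6_appTop RingHom.finite_respectsIso f V hf⟩
    · rw [HasRingHomProperty.iff_of_isAffine (P := @Etale)]
      exact NG6_appTop RingHom.Etale.respectsIso f V he
  have hsup : iSup (fun b : Bool => if b then U else U') = ⊤ := by
    rw [iSup_bool_eq]
    simpa using hUU'
  have l1 : IsZariskiLocalAtTarget (@IsFinite : MorphismProperty Scheme.{u}) := inferInstance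
  have l2 : IsZariskiLocalAtTarget (@Etale : MorphismProperty Scheme.{u}) := inferInstance
  constructor
  · refine (IsZariskiLocalAtTarget.iff_of_iSup_eq_top (P := @IsFinite) _ hsup).mpr ?_
    rintro (_ | _)
    · exact (key U' hU' h1' h2').1
    · exact (key U hU h1 h2).1
  · refine (IsZariskiLocalAtTarget.iff_of_iSup_eq_top (P := @Etale) _ hsup).mpr ?_
    rintro (_ | _)
    · exact (key U' hU' h1' h2').2
    · exact (key U hU h1 h2).2
-- END NG6

-- BEGIN NG7
/-- (NG7) The relative normalization of `Y` in an integral scheme over an open subscheme. `f = π ≫ j`: `pullback.fst f j` is an isomorphism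
(`j` mono), `pullback.snd f j = pullback.fst f j ≫ π` is integral, so its `toNormalization` is an isomorphism (instance), and `f.normalizationPullback j` is an
isomorphism (instance, `j` smooth), with the lemmas `normalizationPullback_snd`, `toNormalization_normalizationPullback_fst`; conclude by `IsPullback.of_iso_pullback`. -/
theorem isPullback_toNormalization {C Z Y : Scheme.{u}} (π : C ⟶ Z) [IsIntegralHom π] (j : Z ⟶ Y)
    [IsOpenImmersion j] [QuasiCompact j] :
    IsPullback (π ≫ j).toNormalization π (π ≫ j).fromNormalization j := by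
  have hsnd : pullback.snd (π ≫ j) j = pullback.fst (π ≫ j) j ≫ π := by
    rw [← cancel_mono j, ← pullback.condition, Category.assoc]
  let l : C ⟶ pullback (π ≫ j) j := pullback.lift (𝟙 C) π (by simp)
  have hl0 : l ≫ pullback.fst (π ≫ j) j = 𝟙 C := pullback.lift_fst ..
  have hl1 : l ≫ pullback.snd (π ≫ j) j = π := pullback.lift_snd ..
  have hl2 : pullback.fst (π ≫ j) j ≫ l = 𝟙 _ := by
    apply pullback.hom_ext
    · rw [Category.assoc, hl0, Category.comp_id, Category.id_comp]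
    · rw [Category.assoc, hl1, ← hsnd, Category.id_comp]
  have : IsIso l := ⟨pullback.fst _ _, hl0, hl2⟩
  have : IsIso (pullback.fst (π ≫ j) j) := ⟨l, hl2, hl0⟩
  have : IsIntegralHom (pullback.snd (π ≫ j) j) := by rw [hsnd]; infer_instance
  refine IsPullback.of_iso_pullback ⟨by simp⟩
    (asIso (l ≫ (pullback.snd (π ≫ j) j).toNormalization ≫ (π ≫ j).normalizationPullback j)) ?_ ?_
  · rw [asIso_hom, Category.assoc, Category.assoc,
      Scheme.Hom.toNormalization_normalizationPullback_fst, reassoc_of% hl0]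
  · rw [asIso_hom, Category.assoc, Category.assoc, Scheme.Hom.normalizationPullback_snd,
      Scheme.Hom.toNormalization_fromNormalization, hl1]
-- END NG7

-- BEGIN NG8
/-- (NG8) `K = O[1/a]` for `a ≠ 0` not a unit (rank one), so `Spec K → Spec O` is an open immersion
(`IsOpenImmersion` of `Spec.map` of a localization away from an element). -/
theorem isOpenImmersion_genPt {K : Type u} [Field K] (O : ValuationSubring K) (hO : RankOne O) :
    IsOpenImmersion (genPt O) := by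
  obtain ⟨⟨a, ha0, ha⟩, hdiv⟩ := hO
  have ha0' : (a : K) ≠ 0 := fun h => ha0 (Subtype.ext h)
  have hloc : IsLocalization.Away a K := by
    refine ⟨?_, ?_, ?_⟩
    · rintro ⟨y, n, rfl⟩
      have : algebraMap O K (a ^ n) = (a : K) ^ n := by rw [map_pow]; rfl
      simp only [this]
      exact (pow_ne_zero n ha0').isUnit
    · intro z
      obtain ⟨x, y, hy, hxy⟩ : ∃ x y : O, (y : K) ≠ 0 ∧ z = x / y := by
        obtain ⟨x, y, hy, hz⟩ := IsFractionRing.div_surjective (A := O) z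
        refine ⟨x, y, ?_, ?_⟩
        · intro h
          exact nonZeroDivisors.ne_zero hy (Subtype.ext h)
        · rw [← hz]; rfl
      obtain ⟨n, w, hw⟩ := hdiv a y ha (fun h => hy (by rw [h]; rfl))
      refine ⟨⟨x * w, ⟨a ^ n, n, rfl⟩⟩, ?_⟩
      change z * algebraMap O K (a ^ n) = algebraMap O K (x * w)
      rw [hw, map_mul, map_mul, hxy]
      change (x : K) / y * (y * w) = x * w
      field_simp
    · intro x y h
      exact ⟨1, by rw [(Subtype.ext h : x = y)]⟩
  unfold genPt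
  exact IsOpenImmersion.of_isLocalization a
-- END NG8

-- BEGIN NG9
/-- (NG9) A scheme covered by two affine opens with domains as rings of sections and nonempty
intersection is integral: reduced (local) and irreducible (two irreducible open subsets which meet: the basic open subset of `x ≠ 0` is not
empty), `isIntegral_of_irreducibleSpace_of_isReduced`. -/
theorem isIntegral_of_two_charts {Y : Scheme.{u}} (V V' : Y.Opens) (hV : IsAffineOpen V)
    (hV' : IsAffineOpen V') (hVV' : V ⊔ V' = ⊤) [IsDomain Γ(Y, V)] [IsDomain Γ(Y, V')] (x : Γ(Y, V))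
    (hx : x ≠ 0) (hxV : Y.basicOpen x ≤ V') : IsIntegral Y := by
  have hint : ∀ W : Y.Opens, IsAffineOpen W → IsDomain Γ(Y, W) → IsIntegral W.toScheme := by
    intro W hW hd
    have : IsIntegral (Spec Γ(Y, W)) := inferInstance
    have : Nonempty W.toScheme := by
      obtain ⟨p⟩ : Nonempty (Spec Γ(Y, W)) := inferInstance
      exact ⟨hW.isoSpec.inv p⟩
    exact isIntegral_of_isOpenImmersion hW.isoSpec.hom
  have i1 := hint V hV inferInstance
  have i2 := hint V' hV' inferInstance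
  have hsup : TopologicalSpace.IsOpenCover (fun b : Bool => if b then V else V') := by
    rw [TopologicalSpace.IsOpenCover, iSup_bool_eq]
    simpa using hVV'
  have hred : IsReduced Y := by
    have : ∀ i, IsReduced ((Y.openCoverOfIsOpenCover _ hsup).X i) := by
      rintro (_ | _)
      · exact inferInstanceAs (IsReduced V'.toScheme)
      · exact inferInstanceAs (IsReduced V.toScheme)
    exact IsReduced.of_openCover Y (Y.openCoverOfIsOpenCover _ hsup)
  have pirr : ∀ W : Y.Opens, IsIntegral W.toScheme → IsPreirreducible (W : Set Y) := by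
    intro W hW
    have h := (PreirreducibleSpace.isPreirreducible_univ (X := W.toScheme)).image W.ι
      W.ι.continuous.continuousOn
    rwa [Set.image_univ, Scheme.Opens.range_ι] at h
  have p1 := pirr V i1
  have p2 := pirr V' i2
  obtain ⟨q, hq, hq'⟩ : ∃ q : Y, q ∈ V ∧ q ∈ V' := by
    by_contra hcon
    push Not at hcon
    apply hx
    rw [← basicOpen_eq_bot_iff, eq_bot_iff]
    intro z hz
    exact hcon z (Y.basicOpen_le x hz) (hxV hz)
  have meet : ∀ A : Set Y, IsOpen A → A.Nonempty → ((V : Set Y) ∩ (A ∩ V')).Nonempty := by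
    rintro A hA ⟨a, ha⟩
    have ha' : a ∈ V ⊔ V' := by rw [hVV']; trivial
    rcases ha' with hav | hav
    · obtain ⟨b, hb1, hb2, hb3⟩ := p1 A V' hA V'.isOpen ⟨a, hav, ha⟩ ⟨q, hq, hq'⟩
      exact ⟨b, hb1, hb2, hb3⟩
    · obtain ⟨b, hb1, hb2, hb3⟩ := p2 A V hA V.isOpen ⟨a, hav, ha⟩ ⟨q, hq', hq⟩
      exact ⟨b, hb3, hb2, hb1⟩
  have hirr : IrreducibleSpace Y := by
    refine { isPreirreducible_univ := ?_, toNonempty := ⟨q⟩ }
    rintro A B hA hB ⟨a, -, ha⟩ ⟨b, -, hb⟩
    obtain ⟨z, -, hz⟩ := p1 (A ∩ V') (B ∩ V') (hA.inter V'.isOpen) (hB.inter V'.isOpen)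
      (meet A hA ⟨a, ha⟩) (meet B hB ⟨b, hb⟩)
    exact ⟨z, trivial, hz.1.1, hz.2.1⟩
  exact isIntegral_of_irreducibleSpace_of_isReduced Y
-- END NG9

-- BEGIN NG10
/-- (NG10) The preimage of a nonempty open subset under an étale morphism to an integral scheme is nonempty: the image of
`π` is open (étale: flat and locally of finite presentation, `Scheme.Hom.isOpenMap` or `UniversallyOpen`) and not empty, `Z` is irreducible. -/
theorem nonempty_preimage {C Z : Scheme.{u}} [IsIntegral Z] [Nonempty C] (π : C ⟶ Z) [Etale π]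
    (V : Z.Opens) (hV : Nonempty V) : Nonempty ↥(π ⁻¹ᵁ V) := by
  have hopen : IsOpenMap π := by
    have : UniversallyOpen π := inferInstance
    exact π.isOpenMap
  obtain ⟨v⟩ := hV
  obtain ⟨z, ⟨a, ha⟩, hz⟩ := nonempty_preirreducible_inter hopen.isOpen_range V.isOpen
    (Set.range_nonempty _) ⟨v.1, v.2⟩
  refine ⟨⟨a, ?_⟩⟩
  change π a ∈ V
  rw [ha]
  exact hz
-- END NG10

-- BEGIN NG11
/-- (NG11) The special fibre over a chart: paste `hp` with `sec_pullback ψ H hW rfl`. -/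
theorem chart_special {F O k : Type u} [CommRing F] [CommRing O] [CommRing k] (φ : F →+* O)
    (ψ : O →+* k) {X Y : Scheme.{u}} {f : X ⟶ Spec (.of O)} {y : Y ⟶ Spec (.of k)} {i : Y ⟶ X}
    (H : IsPullback i y f (Spec.map (CommRingCat.ofHom ψ))) {W : X.Opens} (hW : IsAffineOpen W)
    {B₀ : Type u} [CommRing B₀] (a : F →+* B₀) (v : B₀ →+* Γ(X, W))
    (hp : IsPushout (CommRingCat.ofHom φ) (CommRingCat.ofHom a) (CommRingCat.ofHom (str f W))
      (CommRingCat.ofHom v)) :
    IsPushout (CommRingCat.ofHom (ψ.comp φ)) (CommRingCat.ofHom a)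
      (CommRingCat.ofHom (str y (i ⁻¹ᵁ W))) (CommRingCat.ofHom ((i.app W).hom.comp v)) := by
  have h := hp.paste_horiz (sec_pullback ψ H hW rfl)
  rw [← CommRingCat.ofHom_comp] at h
  rw [Scheme.Hom.app_eq_appLE]
  exact h
-- END NG11

end Pool.Agent.Lib.MP_211349_ag
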