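import Mathlib

/-!
# Sections of schemes over a ring
-/

open CategoryTheory Limits AlgebraicGeometry

universe u

noncomputable section

namespace Pool.Agent.Lib.MP_211349_ag

theorem le_preimage_top {X Y : Scheme.{u}} (s : X ⟶ Y) (U : X.Opens) : U ≤ s ⁻¹ᵁ ⊤ := by simp

/-- The structure homomorphism on the sections of an `R`-scheme. -/
def str {R : Type u} [CommRing R] {X : Scheme.{u}} (s : X ⟶ Spec (.of R)) (U : X.Opens) :
    R →+* Γ(X, U) :=
  (s.appLE ⊤ U (le_preimage_top s U)).hom.comp (Scheme.ΓSpecIso (.of R)).inv.hom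

theorem str_map {R : Type u} [CommRing R] {X : Scheme.{u}} (s : X ⟶ Spec (.of R)) {U V : X.Opens}
    (h : V ≤ U) : (X.presheaf.map (homOfLE h).op).hom.comp (str s U) = str s V := by
  unfold str
  rw [← RingHom.comp_assoc, ← CommRingCat.hom_comp, Scheme.Hom.appLE_map]

theorem str_appLE {R : Type u} [CommRing R] {X Y : Scheme.{u}} (f : Y ⟶ X) (s : X ⟶ Spec (.of R))
    (U : X.Opens) (V : Y.Opens) (h : V ≤ f ⁻¹ᵁ U) :
    (f.appLE U V h).hom.comp (str s U) = str (f ≫ s) V := by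
  unfold str
  rw [← RingHom.comp_assoc, ← CommRingCat.hom_comp, Scheme.Hom.appLE_comp_appLE]

theorem str_app {R : Type u} [CommRing R] {X Y : Scheme.{u}} (f : Y ⟶ X) (s : X ⟶ Spec (.of R))
    (U : X.Opens) : (f.app U).hom.comp (str s U) = str (f ≫ s) (f ⁻¹ᵁ U) := by
  rw [Scheme.Hom.app_eq_appLE, str_appLE]

theorem str_base {R T : Type u} [CommRing R] [CommRing T] (φ : R →+* T) {X : Scheme.{u}}
    (s : X ⟶ Spec (.of T)) (U : X.Opens) :
    str (s ≫ Spec.map (CommRingCat.ofHom φ)) U = (str s U).comp φ := by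
  unfold str
  rw [← Scheme.Hom.appLE_comp_appLE s _ ⊤ ⊤ U (le_preimage_top _ _) (le_preimage_top _ _)]
  rw [CommRingCat.hom_comp, RingHom.comp_assoc, RingHom.comp_assoc]
  congr 1
  rw [← CommRingCat.hom_comp]
  have h := Scheme.ΓSpecIso_inv_naturality (CommRingCat.ofHom φ)
  have h2 := congrArg CommRingCat.Hom.hom h
  rw [CommRingCat.hom_comp, CommRingCat.hom_ofHom] at h2
  rw [h2]
  simp [Scheme.Hom.appTop, Scheme.Hom.app_eq_appLE]

/-- Sections over an affine open subset of a base change. -/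
theorem sec_pullback {R T : Type u} [CommRing R] [CommRing T] (φ : R →+* T) {X Y : Scheme.{u}}
    {s : X ⟶ Spec (.of R)} {t : Y ⟶ Spec (.of T)} {i : Y ⟶ X}
    (H : IsPullback i t s (Spec.map (CommRingCat.ofHom φ))) {U : X.Opens} (hU : IsAffineOpen U)
    {V : Y.Opens} (hV : V = i ⁻¹ᵁ U) :
    IsPushout (CommRingCat.ofHom φ) (CommRingCat.ofHom (str s U)) (CommRingCat.ofHom (str t V))
      (i.appLE U V hV.le) := by
  have h1 := isIso_pushoutSection_of_isAffineOpen H (US := ⊤) (UT := ⊤) (UX := U)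
    (le_preimage_top _ _) (le_preimage_top _ _) (UY := V) (by simp [hV]) (isAffineOpen_top _)
    (isAffineOpen_top _) hU
  rw [isIso_pushoutSection_iff] at h1
  refine IsPushout.of_iso h1.flip (Scheme.ΓSpecIso (.of R)) (Scheme.ΓSpecIso (.of T)) (Iso.refl _)
    (Iso.refl _) ?_ ?_ ?_ ?_
  · have h := Scheme.ΓSpecIso_naturality (CommRingCat.ofHom φ)
    rw [← h]
    simp [Scheme.Hom.appTop, Scheme.Hom.app_eq_appLE]
  · rw [Iso.refl_hom, Category.comp_id]
    unfold str
    rw [CommRingCat.ofHom_comp]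
    simp
  · rw [Iso.refl_hom, Category.comp_id]
    unfold str
    rw [CommRingCat.ofHom_comp]
    simp
  · simp

end Pool.Agent.Lib.MP_211349_ag
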